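import Mathlib

/-!
# Branching annihilating random walk: range one in dimension one dies out for every mean
(MP_0a21e2_pr, Q1 for d = R = 1)

Whatever the mean `mu` is, a site is occupied with probability at most `1/e`, and only if one of its
three neighbours (itself included) was occupied. The number of the sites which have an occupied
neighbour decreases in the mean by the factor `23/25` in every step.
-/

universe u

namespace Pool.Agent.Results.MP_0a21e2_pr.RangeOneExtinction

open Finset

/-- The sites `x ∈ ℤ^d`. -/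
abbrev Site (d : ℕ) := Fin d → ℤ

/-- The box `B_R(x) = {y : |y i - x i| ≤ R for all i}`. -/
noncomputable def box {d : ℕ} (R : ℕ) (x : Site d) : Finset (Site d) :=
  Finset.Icc (fun i => x i - (R : ℤ)) (fun i => x i + (R : ℤ))

/-- `δ_R(x; A)`: the density of the configuration `A` (the set of occupied sites) in `B_R(x)`. -/
noncomputable def density {d : ℕ} (R : ℕ) (A : Finset (Site d)) (x : Site d) : ℝ :=
  ((A ∩ box R x).card : ℝ) / (2 * (R : ℝ) + 1) ^ d

/-- `φ_μ(w) = μ w e^{-μ w}`. -/
noncomputable def phi (μ w : ℝ) : ℝ := μ * w * Real.exp (-(μ * w))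

/-- The sites which have an occupied site in their box; all other sites are empty in the next
step. -/
noncomputable def reach {d : ℕ} (R : ℕ) (A : Finset (Site d)) : Finset (Site d) := A.biUnion (box R)

/-- The probability that the next configuration after `A` is `B` (for `B ⊆ reach R A`): the sites
`x` are independently occupied with probability `φ_μ(δ_R(x; A))`. -/
noncomputable def trans {d : ℕ} (μ : ℝ) (R : ℕ) (A B : Finset (Site d)) : ℝ :=
  (∏ x ∈ B, phi μ (density R A x)) * ∏ x ∈ reach R A \ B, (1 - phi μ (density R A x))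

/-- The probability that the process started from the finite configuration `A` is not empty at
time `n`. -/
noncomputable def alive {d : ℕ} (μ : ℝ) (R : ℕ) : ℕ → Finset (Site d) → ℝ
  | 0, A => if A = ∅ then 0 else 1
  | n + 1, A => ∑ B ∈ (reach R A).powerset, trans μ R A B * alive μ R n B

/-- The survival region `S(d, R)`: the means `μ > 0` for which the process started from a single
particle at the origin survives, i.e. the limit of the (nonincreasing) probabilities that it is
not empty at time `n` is positive. -/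
def survivalRegion (d R : ℕ) : Set ℝ :=
  {μ | 0 < μ ∧ 0 < ⨅ n : ℕ, alive μ R n ({0} : Finset (Site d))}

/-! ### One step -/

theorem phi_nonneg {μ w : ℝ} (hμ : 0 ≤ μ) (hw : 0 ≤ w) : 0 ≤ phi μ w :=
  mul_nonneg (mul_nonneg hμ hw) (Real.exp_pos _).le

theorem phi_le (μ w : ℝ) : phi μ w ≤ 368 / 1000 := by
  have h : phi μ w ≤ Real.exp (-1) := by
    unfold phi
    have h1 : μ * w ≤ Real.exp (μ * w - 1) := by
      have := Real.add_one_le_exp (μ * w - 1)
      linarith
    calc μ * w * Real.exp (-(μ * w)) ≤ Real.exp (μ * w - 1) * Real.exp (-(μ * w)) :=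
          mul_le_mul_of_nonneg_right h1 (Real.exp_pos _).le
      _ = Real.exp (-1) := by rw [← Real.exp_add]; ring_nf
  have h2 : Real.exp (-1) ≤ 368 / 1000 := by
    rw [Real.exp_neg]
    have := Real.exp_one_gt_d9
    rw [inv_le_comm₀ (Real.exp_pos _) (by norm_num)]
    norm_num at this ⊢
    linarith
  exact h.trans h2

theorem density_nonneg {d : ℕ} (R : ℕ) (A : Finset (Site d)) (x : Site d) : 0 ≤ density R A x := by
  unfold density
  positivity

theorem mem_box_comm {d : ℕ} {R : ℕ} {x y : Site d} : y ∈ box R x ↔ x ∈ box R y := by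
  unfold box
  simp only [Finset.mem_Icc, Pi.le_def]
  constructor
  · rintro ⟨h1, h2⟩
    exact ⟨fun i => by have := h2 i; omega, fun i => by have := h1 i; omega⟩
  · rintro ⟨h1, h2⟩
    exact ⟨fun i => by have := h2 i; omega, fun i => by have := h1 i; omega⟩

theorem mem_reach {d : ℕ} {R : ℕ} {A : Finset (Site d)} {y : Site d} :
    y ∈ reach R A ↔ ∃ a ∈ A, y ∈ box R a := by
  simp [reach]

/-- the weights of the subsets avoiding `T` -/
theorem sum_avoid {α : Type*} [DecidableEq α] (U T : Finset α) (p : α → ℝ) :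
    ∑ B ∈ U.powerset, ((∏ x ∈ B, p x) * ∏ x ∈ U \ B, (1 - p x)) *
      (if Disjoint B T then 1 else 0) = ∏ x ∈ U ∩ T, (1 - p x) := by
  have h := Finset.prod_add (fun x => if x ∈ T then 0 else p x) (fun x => 1 - p x) U
  have h1 : ∏ x ∈ U, ((if x ∈ T then 0 else p x) + (1 - p x)) = ∏ x ∈ U ∩ T, (1 - p x) := by
    rw [Finset.prod_congr rfl (g := fun x => if x ∈ T then (1 - p x) else 1)
      (fun x _ => by split_ifs <;> ring)]
    rw [Finset.prod_ite, Finset.prod_const_one, mul_one, Finset.filter_mem_eq_inter]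
  rw [← h1, h]
  refine Finset.sum_congr rfl fun B _ => ?_
  by_cases hB : Disjoint B T
  · rw [if_pos hB, mul_one]
    congr 1
    refine Finset.prod_congr rfl fun x hx => ?_
    rw [if_neg (Finset.disjoint_left.mp hB hx)]
  · rw [if_neg hB, mul_zero]
    rw [Finset.not_disjoint_iff] at hB
    obtain ⟨x, hx, hT⟩ := hB
    rw [Finset.prod_eq_zero hx (by rw [if_pos hT]), zero_mul]

theorem sum_trans {d : ℕ} (μ : ℝ) (R : ℕ) (A : Finset (Site d)) :
    ∑ B ∈ (reach R A).powerset, trans μ R A B = 1 := by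
  have h := sum_avoid (reach R A) ∅ (fun x => phi μ (density R A x))
  simpa [trans] using h

theorem trans_nonneg {d : ℕ} {μ : ℝ} (hμ : 0 ≤ μ) (R : ℕ) (A B : Finset (Site d)) :
    0 ≤ trans μ R A B := by
  refine mul_nonneg (Finset.prod_nonneg fun x _ => phi_nonneg hμ (density_nonneg _ _ _))
    (Finset.prod_nonneg fun x _ => ?_)
  have := phi_le μ (density R A x)
  linarith

/-- The mean of the number of the sites which have an occupied neighbour after one step. -/
theorem mean_reach {d : ℕ} (μ : ℝ) (R : ℕ) (A : Finset (Site d)) :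
    ∑ B ∈ (reach R A).powerset, trans μ R A B * ((reach R B).card : ℝ) =
      ∑ y ∈ reach R (reach R A),
        (1 - ∏ x ∈ reach R A ∩ box R y, (1 - phi μ (density R A x))) := by
  have hcard : ∀ B ∈ (reach R A).powerset, ((reach R B).card : ℝ) =
      ∑ y ∈ reach R (reach R A), (1 - if Disjoint B (box R y) then (1 : ℝ) else 0) := by
    intro B hB
    rw [Finset.mem_powerset] at hB
    have hsub : reach R B ⊆ reach R (reach R A) := Finset.biUnion_subset_biUnion_of_subset_left _ hB
    have h2 : ∀ y ∈ reach R (reach R A), (1 - if Disjoint B (box R y) then (1 : ℝ) else 0) =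
        if y ∈ reach R B then 1 else 0 := by
      intro y _
      by_cases hy : y ∈ reach R B
      · rw [if_pos hy, if_neg, sub_zero]
        rw [Finset.not_disjoint_iff]
        obtain ⟨a, ha, hya⟩ := mem_reach.mp hy
        exact ⟨a, ha, mem_box_comm.mp hya⟩
      · rw [if_neg hy, if_pos, sub_self]
        rw [Finset.disjoint_left]
        intro a ha hya
        exact hy (mem_reach.mpr ⟨a, ha, mem_box_comm.mp hya⟩)
    rw [Finset.sum_congr rfl h2, Finset.sum_ite_mem, Finset.inter_eq_right.mpr hsub]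
    simp
  calc ∑ B ∈ (reach R A).powerset, trans μ R A B * ((reach R B).card : ℝ)
      = ∑ B ∈ (reach R A).powerset, ∑ y ∈ reach R (reach R A),
          (trans μ R A B - trans μ R A B * (if Disjoint B (box R y) then (1 : ℝ) else 0)) := by
        refine Finset.sum_congr rfl fun B hB => ?_
        rw [hcard B hB, Finset.mul_sum]
        refine Finset.sum_congr rfl fun y _ => by ring
    _ = ∑ y ∈ reach R (reach R A), ∑ B ∈ (reach R A).powerset,
          (trans μ R A B - trans μ R A B * (if Disjoint B (box R y) then (1 : ℝ) else 0)) :=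
        Finset.sum_comm
    _ = _ := by
        refine Finset.sum_congr rfl fun y _ => ?_
        rw [Finset.sum_sub_distrib, sum_trans]
        congr 1
        exact sum_avoid (reach R A) (box R y) (fun x => phi μ (density R A x))

/-! ### Dimension one, range one -/

theorem box_one (x : Site 1) : box 1 x = {x - 1, x, x + 1} := by
  ext y
  simp only [box, Finset.mem_Icc, Pi.le_def, Fin.forall_fin_one, Finset.mem_insert,
    Finset.mem_singleton, funext_iff, Pi.sub_apply, Pi.add_apply, Pi.one_apply]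
  push_cast
  omega

/-- the constants `a k = 1 - q^k` divided by `k`, `q = 632/1000` -/
noncomputable def rr (k : ℕ) : ℝ := (1 - (632 / 1000 : ℝ) ^ k) / k

theorem rr_one : rr 1 = 368 / 1000 := by norm_num [rr]

theorem rr_two : rr 2 = 300288 / 1000000 := by norm_num [rr]

theorem rr_three : rr 3 = 747564032 / 3000000000 := by norm_num [rr]

theorem step_ne (x : Site 1) : x - 1 ≠ x ∧ x - 1 ≠ x + 1 ∧ x ≠ x + 1 := by
  refine ⟨fun h => ?_, fun h => ?_, fun h => ?_⟩ <;>
    · have := congrFun h 0
      simp only [Pi.sub_apply, Pi.add_apply, Pi.one_apply] at this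
      omega

theorem sum_box_one (x : Site 1) {M : Type*} [AddCommMonoid M] (f : Site 1 → M) :
    ∑ y ∈ box 1 x, f y = f (x - 1) + (f x + f (x + 1)) := by
  obtain ⟨h1, h2, h3⟩ := step_ne x
  rw [box_one, Finset.sum_insert (by simp [h1, h2]), Finset.sum_insert (by simp [h3]),
    Finset.sum_singleton]

theorem card_inter_box (U : Finset (Site 1)) (y : Site 1) :
    (U ∩ box 1 y).card =
      (if y - 1 ∈ U then 1 else 0) + ((if y ∈ U then 1 else 0) + (if y + 1 ∈ U then 1 else 0)) := by
  rw [Finset.inter_comm, ← Finset.filter_mem_eq_inter, Finset.card_filter, sum_box_one]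

/-- every occupied site passes on at most `23/25` -/
theorem local_bound (A : Finset (Site 1)) {x : Site 1} (hx : x ∈ reach 1 A) :
    ∑ y ∈ box 1 x, rr ((reach 1 A ∩ box 1 y).card) ≤ 23 / 25 := by
  have hsub : ∀ a ∈ A, a - 1 ∈ reach 1 A ∧ a ∈ reach 1 A ∧ a + 1 ∈ reach 1 A := by
    intro a ha
    refine ⟨mem_reach.mpr ⟨a, ha, ?_⟩, mem_reach.mpr ⟨a, ha, ?_⟩, mem_reach.mpr ⟨a, ha, ?_⟩⟩ <;>
      simp [box_one]
  obtain ⟨a, ha, hxa⟩ := mem_reach.mp hx
  obtain ⟨h1, h2, h3⟩ := hsub a ha
  rw [sum_box_one, card_inter_box, card_inter_box, card_inter_box]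
  rw [box_one] at hxa
  simp only [Finset.mem_insert, Finset.mem_singleton] at hxa
  rcases hxa with rfl | rfl | rfl
  · have e1 : a - 1 - 1 + 1 = a - 1 := by abel
    have e2 : a - 1 + 1 = a := by abel
    rw [e1, e2]
    simp only [h1, h2, h3, if_true]
    split_ifs <;> norm_num [rr_one, rr_two, rr_three]
  · have e1 : x - 1 + 1 = x := by abel
    have e2 : x + 1 - 1 = x := by abel
    rw [e1, e2]
    simp only [h1, h2, h3, if_true]
    split_ifs <;> norm_num [rr_one, rr_two, rr_three]
  · have e1 : a + 1 - 1 = a := by abel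
    have e2 : a + 1 + 1 - 1 = a + 1 := by abel
    rw [e2, e1]
    simp only [h1, h2, h3, if_true]
    split_ifs <;> norm_num [rr_one, rr_two, rr_three]

/-- One step decreases the mean of `|reach|` by the factor `23/25`. -/
theorem contraction (μ : ℝ) (A : Finset (Site 1)) :
    ∑ B ∈ (reach 1 A).powerset, trans μ 1 A B * ((reach 1 B).card : ℝ) ≤
      23 / 25 * ((reach 1 A).card : ℝ) := by
  rw [mean_reach]
  set U := reach 1 A with hU
  have hprod : ∀ y : Site 1, (632 / 1000 : ℝ) ^ (U ∩ box 1 y).card ≤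
      ∏ x ∈ U ∩ box 1 y, (1 - phi μ (density 1 A x)) := by
    intro y
    rw [← Finset.prod_const]
    refine Finset.prod_le_prod (fun _ _ => by norm_num) fun x _ => ?_
    have := phi_le μ (density 1 A x)
    linarith
  have hterm : ∀ y : Site 1, 1 - ∏ x ∈ U ∩ box 1 y, (1 - phi μ (density 1 A x)) ≤
      ∑ x ∈ U ∩ box 1 y, rr ((U ∩ box 1 y).card) := by
    intro y
    rw [Finset.sum_const, nsmul_eq_mul]
    refine (sub_le_sub_left (hprod y) 1).trans (le_of_eq ?_)
    unfold rr
    rcases Nat.eq_zero_or_pos (U ∩ box 1 y).card with h0 | h0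
    · rw [h0]; norm_num
    · have : ((U ∩ box 1 y).card : ℝ) ≠ 0 := by positivity
      field_simp
  calc ∑ y ∈ reach 1 U, (1 - ∏ x ∈ U ∩ box 1 y, (1 - phi μ (density 1 A x)))
      ≤ ∑ y ∈ reach 1 U, ∑ x ∈ U ∩ box 1 y, rr ((U ∩ box 1 y).card) :=
        Finset.sum_le_sum fun y _ => hterm y
    _ = ∑ y ∈ reach 1 U, ∑ x ∈ U, if x ∈ box 1 y then rr ((U ∩ box 1 y).card) else 0 := by
        refine Finset.sum_congr rfl fun y _ => ?_
        rw [Finset.sum_ite_mem]
    _ = ∑ x ∈ U, ∑ y ∈ reach 1 U, if x ∈ box 1 y then rr ((U ∩ box 1 y).card) else 0 :=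
        Finset.sum_comm
    _ = ∑ x ∈ U, ∑ y ∈ box 1 x, rr ((U ∩ box 1 y).card) := by
        refine Finset.sum_congr rfl fun x hx => ?_
        have hs : box 1 x ⊆ reach 1 U := fun y hy => mem_reach.mpr ⟨x, hx, hy⟩
        have e : ∀ y ∈ reach 1 U, (if x ∈ box 1 y then rr ((U ∩ box 1 y).card) else 0) =
            if y ∈ box 1 x then rr ((U ∩ box 1 y).card) else 0 := by
          intro y _
          simp only [mem_box_comm (x := y) (y := x)]
        rw [Finset.sum_congr rfl e, Finset.sum_ite_mem, Finset.inter_eq_right.mpr hs]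
    _ ≤ ∑ x ∈ U, (23 / 25 : ℝ) := Finset.sum_le_sum fun x hx => local_bound A hx
    _ = 23 / 25 * (U.card : ℝ) := by rw [Finset.sum_const, nsmul_eq_mul, mul_comm]

theorem subset_reach {d : ℕ} (R : ℕ) (A : Finset (Site d)) : A ⊆ reach R A := by
  intro x hx
  refine mem_reach.mpr ⟨x, hx, ?_⟩
  simp only [box, Finset.mem_Icc, Pi.le_def]
  exact ⟨fun i => by omega, fun i => by omega⟩

theorem alive_nonneg {d : ℕ} {μ : ℝ} (hμ : 0 ≤ μ) (R n : ℕ) (A : Finset (Site d)) :
    0 ≤ alive μ R n A := by
  induction n generalizing A with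
  | zero => unfold alive; split_ifs <;> norm_num
  | succ n ih =>
    unfold alive
    exact Finset.sum_nonneg fun B _ => mul_nonneg (trans_nonneg hμ R A B) (ih B)

theorem alive_le {μ : ℝ} (hμ : 0 ≤ μ) (n : ℕ) (A : Finset (Site 1)) :
    alive μ 1 n A ≤ (23 / 25) ^ n * ((reach 1 A).card : ℝ) := by
  induction n generalizing A with
  | zero =>
    unfold alive
    rw [pow_zero, one_mul]
    split_ifs with h
    · positivity
    · have h1 : 0 < A.card := Finset.card_pos.mpr (Finset.nonempty_iff_ne_empty.mpr h)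
      have h2 : A.card ≤ (reach 1 A).card := Finset.card_le_card (subset_reach 1 A)
      exact_mod_cast (h1.trans_le h2 : 1 ≤ (reach 1 A).card)
  | succ n ih =>
    unfold alive
    calc ∑ B ∈ (reach 1 A).powerset, trans μ 1 A B * alive μ 1 n B
        ≤ ∑ B ∈ (reach 1 A).powerset, trans μ 1 A B * ((23 / 25) ^ n * ((reach 1 B).card : ℝ)) :=
          Finset.sum_le_sum fun B _ => mul_le_mul_of_nonneg_left (ih B) (trans_nonneg hμ 1 A B)
      _ = (23 / 25) ^ n * ∑ B ∈ (reach 1 A).powerset, trans μ 1 A B * ((reach 1 B).card : ℝ) := by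
          rw [Finset.mul_sum]
          exact Finset.sum_congr rfl fun B _ => by ring
      _ ≤ (23 / 25) ^ n * (23 / 25 * ((reach 1 A).card : ℝ)) :=
          mul_le_mul_of_nonneg_left (contraction μ A) (by positivity)
      _ = _ := by ring

theorem card_reach_le (A : Finset (Site 1)) : (reach 1 A).card ≤ 3 * A.card := by
  refine (Finset.card_biUnion_le).trans ?_
  have h : ∀ a ∈ A, (box 1 a).card ≤ 3 := by
    intro a _
    rw [box_one]
    exact Finset.card_le_three
  refine (Finset.sum_le_sum h).trans ?_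
  rw [Finset.sum_const, smul_eq_mul, mul_comm]

/-! ### Processes -/

open MeasureTheory

/-- `η` is a branching annihilating random walk with mean `μ` and range `R` and finitely many
particles: given the configuration `A` at time `n`, the one at time `n + 1` is `B` with the
probability `trans μ R A B` for `B ⊆ reach R A`, and with probability zero for all other `B`. -/
structure IsBARW {d : ℕ} {Ω : Type*} [MeasurableSpace Ω] (P : Measure Ω) (μ : ℝ) (R : ℕ)
    (η : ℕ → Ω → Finset (Site d)) : Prop where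
  measurable : ∀ n A, MeasurableSet {ω | η n ω = A}
  step : ∀ n A B, P {ω | η n ω = A ∧ η (n + 1) ω = B} =
    P {ω | η n ω = A} * (if B ⊆ reach R A then ENNReal.ofReal (trans μ R A B) else 0)

/-- the mean of `|reach|` at time `n` -/
noncomputable def meanReach {Ω : Type*} [MeasurableSpace Ω] (P : Measure Ω)
    (η : ℕ → Ω → Finset (Site 1)) (n : ℕ) : ENNReal :=
  ∑' A : Finset (Site 1), P {ω | η n ω = A} * ((reach 1 A).card : ENNReal)

theorem meanReach_succ {Ω : Type*} [MeasurableSpace Ω] {P : Measure Ω} {μ : ℝ} (hμ : 0 ≤ μ)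
    {η : ℕ → Ω → Finset (Site 1)} (h : IsBARW P μ 1 η) (n : ℕ) :
    meanReach P η (n + 1) ≤ ENNReal.ofReal (23 / 25) * meanReach P η n := by
  have hsplit : ∀ B : Finset (Site 1), P {ω | η (n + 1) ω = B} =
      ∑' A : Finset (Site 1), P {ω | η n ω = A} *
        (if B ⊆ reach 1 A then ENNReal.ofReal (trans μ 1 A B) else 0) := by
    intro B
    have hU : {ω | η (n + 1) ω = B} = ⋃ A : Finset (Site 1), {ω | η n ω = A ∧ η (n + 1) ω = B} := by
      ext ω
      simp
    rw [hU, measure_iUnion]
    · exact tsum_congr fun A => h.step n A B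
    · intro A A' hne
      rw [Function.onFun, Set.disjoint_left]
      rintro ω ⟨h1, _⟩ ⟨h2, _⟩
      exact hne (h1.symm.trans h2)
    · intro A
      exact (h.measurable n A).inter (h.measurable (n + 1) B)
  have hinner : ∀ A : Finset (Site 1), ∑' B : Finset (Site 1),
      (if B ⊆ reach 1 A then ENNReal.ofReal (trans μ 1 A B) else 0) * ((reach 1 B).card : ENNReal) ≤
        ENNReal.ofReal (23 / 25) * ((reach 1 A).card : ENNReal) := by
    intro A
    rw [tsum_eq_sum (s := (reach 1 A).powerset)]
    · have e : ∀ B ∈ (reach 1 A).powerset,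
          (if B ⊆ reach 1 A then ENNReal.ofReal (trans μ 1 A B) else 0) *
            ((reach 1 B).card : ENNReal) =
          ENNReal.ofReal (trans μ 1 A B * ((reach 1 B).card : ℝ)) := by
        intro B hB
        rw [if_pos (Finset.mem_powerset.mp hB), ENNReal.ofReal_mul (trans_nonneg hμ 1 A B),
          ENNReal.ofReal_natCast]
      rw [Finset.sum_congr rfl e, ← ENNReal.ofReal_sum_of_nonneg
        (fun B _ => mul_nonneg (trans_nonneg hμ 1 A B) (Nat.cast_nonneg _))]
      refine (ENNReal.ofReal_le_ofReal (contraction μ A)).trans (le_of_eq ?_)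
      rw [ENNReal.ofReal_mul (by norm_num), ENNReal.ofReal_natCast]
    · intro B hB
      rw [Finset.mem_powerset] at hB
      rw [if_neg hB, zero_mul]
  unfold meanReach
  calc ∑' B : Finset (Site 1), P {ω | η (n + 1) ω = B} * ((reach 1 B).card : ENNReal)
      = ∑' B : Finset (Site 1), ∑' A : Finset (Site 1), P {ω | η n ω = A} *
        ((if B ⊆ reach 1 A then ENNReal.ofReal (trans μ 1 A B) else 0) *
          ((reach 1 B).card : ENNReal)) := by
        refine tsum_congr fun B => ?_
        rw [hsplit B, ← ENNReal.tsum_mul_right]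
        exact tsum_congr fun A => by rw [mul_assoc]
    _ = ∑' A : Finset (Site 1), ∑' B : Finset (Site 1), P {ω | η n ω = A} *
        ((if B ⊆ reach 1 A then ENNReal.ofReal (trans μ 1 A B) else 0) *
          ((reach 1 B).card : ENNReal)) := ENNReal.tsum_comm
    _ ≤ ∑' A : Finset (Site 1), ENNReal.ofReal (23 / 25) *
        (P {ω | η n ω = A} * ((reach 1 A).card : ENNReal)) := by
        refine ENNReal.tsum_le_tsum fun A => ?_
        rw [ENNReal.tsum_mul_left]
        refine (mul_le_mul_right (hinner A) _).trans (le_of_eq ?_)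
        ring
    _ = _ := ENNReal.tsum_mul_left

theorem prob_nonempty_le {Ω : Type*} [MeasurableSpace Ω] {P : Measure Ω} [IsProbabilityMeasure P]
    {μ : ℝ} (hμ : 0 ≤ μ) {η : ℕ → Ω → Finset (Site 1)} (h : IsBARW P μ 1 η)
    {A₀ : Finset (Site 1)} (h0 : ∀ᵐ ω ∂P, η 0 ω = A₀) (n : ℕ) :
    P {ω | η n ω ≠ ∅} ≤ ENNReal.ofReal (23 / 25) ^ n * (3 * (A₀.card : ENNReal)) := by
  have h1 : meanReach P η 0 ≤ 3 * (A₀.card : ENNReal) := by
    unfold meanReach
    rw [tsum_eq_single A₀]
    · refine (mul_le_mul_left prob_le_one _).trans ?_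
      rw [one_mul]
      exact_mod_cast card_reach_le A₀
    · intro A hA
      have : P {ω | η 0 ω = A} = 0 := by
        refine measure_mono_null (fun ω hω => ?_) (ae_iff.mp h0)
        intro hc
        exact hA ((hω : η 0 ω = A).symm.trans hc)
      rw [this, zero_mul]
  have h2 : ∀ n, meanReach P η n ≤ ENNReal.ofReal (23 / 25) ^ n * (3 * (A₀.card : ENNReal)) := by
    intro n
    induction n with
    | zero => rw [pow_zero, one_mul]; exact h1
    | succ n ih =>
      refine (meanReach_succ hμ h n).trans ?_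
      refine (mul_le_mul_right ih _).trans (le_of_eq ?_)
      rw [pow_succ]
      ring
  refine le_trans ?_ (h2 n)
  have hU : {ω | η n ω ≠ ∅} ⊆ ⋃ A : {A : Finset (Site 1) // A ≠ ∅}, {ω | η n ω = A.1} := by
    intro ω hω
    exact Set.mem_iUnion.mpr ⟨⟨η n ω, hω⟩, rfl⟩
  refine (measure_mono hU).trans ((measure_iUnion_le _).trans ?_)
  unfold meanReach
  refine le_trans (ENNReal.tsum_le_tsum fun A => ?_)
    (ENNReal.tsum_comp_le_tsum_of_injective Subtype.val_injective
      (fun A : Finset (Site 1) => P {ω | η n ω = A} * ((reach 1 A).card : ENNReal)))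
  have h3 : 0 < A.1.card := Finset.card_pos.mpr (Finset.nonempty_iff_ne_empty.mpr A.2)
  have h4 : A.1.card ≤ (reach 1 A.1).card := Finset.card_le_card (subset_reach 1 A.1)
  have h5 : (1 : ENNReal) ≤ ((reach 1 A.1).card : ENNReal) := by
    exact_mod_cast (h3.trans_le h4 : 1 ≤ (reach 1 A.1).card)
  calc P {ω | η n ω = A.1} = P {ω | η n ω = A.1} * 1 := (mul_one _).symm
    _ ≤ P {ω | η n ω = A.1} * ((reach 1 A.1).card : ENNReal) := mul_le_mul_right h5 _

/-- For `d = R = 1` and every mean `μ > 0` the process started from a finite configuration `A` is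
not empty at time `n` with probability at most `(23/25)^n 3|A|`; so `S(1, 1)` is empty, and every
process of finite configurations with these transition probabilities dies out almost surely. -/
theorem result :
    (∀ μ : ℝ, 0 < μ → ∀ (A : Finset (Site 1)) (n : ℕ),
      alive μ 1 n A ≤ (23 / 25) ^ n * (3 * (A.card : ℝ))) ∧
    survivalRegion 1 1 = ∅ ∧
    ∀ (Ω : Type u) [MeasurableSpace Ω] (P : Measure Ω) [IsProbabilityMeasure P] (μ : ℝ)
      (η : ℕ → Ω → Finset (Site 1)) (A₀ : Finset (Site 1)), 0 < μ → IsBARW P μ 1 η →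
        (∀ᵐ ω ∂P, η 0 ω = A₀) → P {ω | ∀ n, η n ω ≠ ∅} = 0 := by
  have hkey : ∀ μ : ℝ, 0 < μ → ∀ (A : Finset (Site 1)) (n : ℕ),
      alive μ 1 n A ≤ (23 / 25) ^ n * (3 * (A.card : ℝ)) := by
    intro μ hμ A n
    refine (alive_le hμ.le n A).trans ?_
    refine mul_le_mul_of_nonneg_left ?_ (by positivity)
    exact_mod_cast card_reach_le A
  refine ⟨hkey, ?_, ?_⟩
  · rw [Set.eq_empty_iff_forall_notMem]
    rintro μ ⟨hμ, hpos⟩
    have hbdd : BddBelow (Set.range fun n : ℕ => alive μ 1 n ({0} : Finset (Site 1))) :=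
      ⟨0, by rintro _ ⟨n, rfl⟩; exact alive_nonneg hμ.le 1 n _⟩
    have hlim : Filter.Tendsto (fun n : ℕ => (23 / 25 : ℝ) ^ n *
        (3 * ((({0} : Finset (Site 1)).card : ℕ) : ℝ))) Filter.atTop (nhds 0) := by
      have := (tendsto_pow_atTop_nhds_zero_of_lt_one (r := (23 / 25 : ℝ)) (by norm_num)
        (by norm_num)).mul_const (3 * ((({0} : Finset (Site 1)).card : ℕ) : ℝ))
      rwa [zero_mul] at this
    have hle : ∀ n : ℕ, (⨅ n : ℕ, alive μ 1 n ({0} : Finset (Site 1))) ≤ (23 / 25 : ℝ) ^ n *
        (3 * ((({0} : Finset (Site 1)).card : ℕ) : ℝ)) := fun n =>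
      (ciInf_le hbdd n).trans (hkey μ hμ {0} n)
    exact absurd (ge_of_tendsto' hlim hle) (not_le.mpr hpos)
  · intro Ω _ P _ μ η A₀ hμ h h0
    have hb : ∀ n : ℕ, P {ω | ∀ n, η n ω ≠ ∅} ≤
        ENNReal.ofReal (23 / 25) ^ n * (3 * (A₀.card : ENNReal)) := fun n =>
      (measure_mono (fun ω (hω : ∀ n, η n ω ≠ ∅) => (hω n : η n ω ≠ ∅))).trans
        (prob_nonempty_le hμ.le h h0 n)
    have hlt : ENNReal.ofReal (23 / 25) < 1 := by
      rw [← ENNReal.ofReal_one]
      exact (ENNReal.ofReal_lt_ofReal_iff (by norm_num)).mpr (by norm_num)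
    have hlim : Filter.Tendsto (fun n : ℕ => ENNReal.ofReal (23 / 25) ^ n *
        (3 * (A₀.card : ENNReal))) Filter.atTop (nhds 0) := by
      have := ENNReal.Tendsto.mul_const (b := 3 * (A₀.card : ENNReal))
        (ENNReal.tendsto_pow_atTop_nhds_zero_of_lt_one hlt)
        (Or.inr (ENNReal.mul_ne_top (by norm_num) (ENNReal.natCast_ne_top _)))
      rwa [zero_mul] at this
    exact le_antisymm (ge_of_tendsto' hlim hb) bot_le

end Pool.Agent.Results.MP_0a21e2_pr.RangeOneExtinction
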